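import Pool.Agent.H295R2.Nic.Defs

set_option autoImplicit false

open MeasureTheory Filter Topology Set

namespace Pool.Agent.H881R2.Lo

open Pool.Agent.H295R2 Pool.Agent.H295R2.Nic

noncomputable section

/-- primes up to `y` -/
def PP (y : ℝ) : Finset ℕ := (Finset.Icc 1 ⌊y⌋₊).filter Nat.Prime

/-- product of the elements -/
def nn (S : Finset ℕ) : ℕ := ∏ p ∈ S, p

/-- `-log (1 - 1/p)` -/
def ff (p : ℕ) : ℝ := -Real.log (1 - 1 / (p : ℝ))

theorem mem_PP {y : ℝ} {p : ℕ} : p ∈ PP y ↔ p.Prime ∧ (p : ℝ) ≤ y := by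
  rw [PP, Finset.mem_filter, Finset.mem_Icc]
  constructor
  · rintro ⟨⟨h1, h2⟩, h3⟩
    exact ⟨h3, (Nat.le_floor_iff' (by omega)).mp h2⟩
  · rintro ⟨h1, h2⟩
    exact ⟨⟨h1.one_lt.le, (Nat.le_floor_iff' h1.ne_zero).mpr h2⟩, h1⟩

theorem theta_eq (y : ℝ) : Chebyshev.theta y = ∑ p ∈ PP y, Real.log p := by
  rw [Chebyshev.theta, PP]
  rfl

theorem MP_eq (y : ℝ) : MP y = ∑ p ∈ PP y, ff p := rfl

theorem log_nn {S : Finset ℕ} (hS : ∀ p ∈ S, p.Prime) :
    Real.log (nn S) = ∑ p ∈ S, Real.log p := by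
  rw [nn, Nat.cast_prod, Real.log_prod (fun p hp => by exact_mod_cast (hS p hp).ne_zero)]

theorem nn_pos {S : Finset ℕ} (hS : ∀ p ∈ S, p.Prime) : 0 < nn S :=
  Finset.prod_pos fun p hp => (hS p hp).pos

theorem log_totient' {n : ℕ} (hn : 0 < n) :
    Real.log ((n : ℝ) / Nat.totient n) = ∑ p ∈ n.primeFactors, ff p := by
  have h := Nat.totient_eq_mul_prod_factors n
  have h' : (Nat.totient n : ℝ) = n * ∏ p ∈ n.primeFactors, (1 - (p : ℝ)⁻¹) := by
    have h2 : ((Nat.totient n : ℚ) : ℝ) =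
        (((n : ℚ) * ∏ p ∈ n.primeFactors, (1 - (p : ℚ)⁻¹) : ℚ) : ℝ) := by rw [h]
    push_cast at h2
    exact h2
  have hn0 : (n : ℝ) ≠ 0 := by exact_mod_cast hn.ne'
  have hne : ∀ p ∈ n.primeFactors, (1 - (p : ℝ)⁻¹) ≠ 0 := by
    intro p hp
    have h2 : (2 : ℝ) ≤ p := by exact_mod_cast (Nat.prime_of_mem_primeFactors hp).two_le
    have : (p : ℝ)⁻¹ < 1 := inv_lt_one_of_one_lt₀ (by linarith)
    linarith [this]
  rw [h', div_mul_eq_div_div, div_self hn0, one_div, Real.log_inv, Real.log_prod hne,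
    ← Finset.sum_neg_distrib]
  refine Finset.sum_congr rfl fun p _ => ?_
  rw [ff, one_div]

theorem log_totient {S : Finset ℕ} (hS : ∀ p ∈ S, p.Prime) :
    Real.log ((nn S : ℝ) / Nat.totient (nn S)) = ∑ p ∈ S, ff p := by
  rw [log_totient' (nn_pos hS), nn, Nat.primeFactors_prod hS]

theorem ff_nonneg {p : ℕ} (hp : 2 ≤ p) : 0 ≤ ff p := by
  have h2 : (2 : ℝ) ≤ p := by exact_mod_cast hp
  have h3 : 1 / (p : ℝ) ≤ 1 / 2 := one_div_le_one_div_of_le (by norm_num) h2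
  have h4 : 0 < 1 / (p : ℝ) := by positivity
  have := Real.log_nonpos (by linarith : 0 ≤ 1 - 1 / (p : ℝ)) (by linarith)
  rw [ff]
  linarith

theorem ff_le {p : ℕ} (hp : 2 ≤ p) : ff p ≤ 1 / ((p : ℝ) - 1) := by
  have h2 : (2 : ℝ) ≤ p := by exact_mod_cast hp
  have h3 : 1 / (p : ℝ) ≤ 1 / 2 := one_div_le_one_div_of_le (by norm_num) h2
  have h4 : 0 < 1 - 1 / (p : ℝ) := by linarith
  have h := Real.one_sub_inv_le_log_of_pos h4
  have h5 : (1 - 1 / (p : ℝ))⁻¹ = 1 + 1 / ((p : ℝ) - 1) := by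
    have : (p : ℝ) - 1 ≠ 0 := by linarith
    have : (p : ℝ) ≠ 0 := by linarith
    field_simp
    ring
  rw [ff]
  rw [h5] at h
  linarith

theorem sdiff_prime {y : ℝ} {A : Finset ℕ} : ∀ p ∈ PP y \ A, p.Prime := fun _ hp =>
  (mem_PP.mp (Finset.mem_sdiff.mp hp).1).1

theorem sum_sdiff' {y : ℝ} {A : Finset ℕ} (hA : A ⊆ PP y) (g : ℕ → ℝ) :
    ∑ p ∈ PP y \ A, g p = ∑ p ∈ PP y, g p - ∑ p ∈ A, g p := by
  rw [← Finset.sum_sdiff hA]
  ring

/-- Tangent line of `log log`. -/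
theorem loglog_le {T Θ : ℝ} (hT : 1 < T) (hΘ : 1 < Θ) :
    Real.log (Real.log T) ≤ Real.log (Real.log Θ) - (Θ - T) / (Θ * Real.log Θ) := by
  have h1 : 0 < Real.log T := Real.log_pos hT
  have h2 : 0 < Real.log Θ := Real.log_pos hΘ
  have h3 : Real.log (Real.log T) - Real.log (Real.log Θ) ≤ Real.log T / Real.log Θ - 1 := by
    rw [← Real.log_div h1.ne' h2.ne']
    exact Real.log_le_sub_one_of_pos (div_pos h1 h2)
  have h4 : Real.log T - Real.log Θ ≤ T / Θ - 1 := by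
    rw [← Real.log_div (by linarith) (by linarith)]
    exact Real.log_le_sub_one_of_pos (div_pos (by linarith) (by linarith))
  have h5 : Real.log T / Real.log Θ - 1 = (Real.log T - Real.log Θ) / Real.log Θ := by
    field_simp
  have h6 : (T / Θ - 1) / Real.log Θ = -((Θ - T) / (Θ * Real.log Θ)) := by
    have : Θ ≠ 0 := by linarith
    field_simp
    ring
  have h7 := div_le_div_of_nonneg_right h4 h2.le
  rw [h6] at h7
  rw [h5] at h3
  linarith

theorem near_mem {y B : ℝ} (A : Finset ℕ) (hA : A ⊆ PP y) (hΘ : 1 < Chebyshev.theta y)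
    (hT : y / 2 ≤ Chebyshev.theta y - ∑ p ∈ A, Real.log p) (hθ2 : Chebyshev.theta y ≤ 2 * y)
    (hT1 : 1 < Chebyshev.theta y - ∑ p ∈ A, Real.log p)
    (h : ∑ p ∈ A, ff p - (∑ p ∈ A, Real.log p) /
      (Chebyshev.theta y * Real.log (Chebyshev.theta y)) ≤ fN y + B) :
    nn (PP y \ A) ∈ Near y B := by
  have hp := sdiff_prime (y := y) (A := A)
  have hA0 : 0 ≤ ∑ p ∈ A, Real.log p := Finset.sum_nonneg fun p hp' =>
    Real.log_nonneg (by exact_mod_cast (mem_PP.mp (hA hp')).1.one_lt.le)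
  have hlog : Real.log (nn (PP y \ A)) = Chebyshev.theta y - ∑ p ∈ A, Real.log p := by
    rw [log_nn hp, sum_sdiff' hA, theta_eq]
  have htot : Real.log ((nn (PP y \ A) : ℝ) / Nat.totient (nn (PP y \ A))) =
      MP y - ∑ p ∈ A, ff p := by
    rw [log_totient hp, sum_sdiff' hA, MP_eq]
  have hll := loglog_le hT1 hΘ
  refine ⟨by rw [hlog]; exact hT, by rw [hlog]; linarith, ?_⟩
  rw [htot, hlog]
  rw [fN] at h
  have e : Chebyshev.theta y - (Chebyshev.theta y - ∑ p ∈ A, Real.log p) =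
    ∑ p ∈ A, Real.log p := by ring
  rw [e] at hll
  linarith

theorem near_finite (y B : ℝ) : (Near y B).Finite := by
  apply (Set.finite_Iic (⌊Real.exp (2 * y)⌋₊)).subset
  intro n hn
  rcases Nat.eq_zero_or_pos n with h0 | h0
  · subst h0
    exact Nat.zero_le _
  · rw [Set.mem_Iic]
    apply Nat.le_floor
    rw [← Real.exp_log (by exact_mod_cast h0 : (0 : ℝ) < n)]
    exact Real.exp_le_exp.mpr hn.2.1

theorem nn_injOn {y : ℝ} {Q : Finset ℕ} (hQ : Q ⊆ PP y) :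
    Set.InjOn (fun A => nn (PP y \ A)) (Q.powerset : Set (Finset ℕ)) := by
  intro A hA A' hA' h
  have h1 : PP y \ A = PP y \ A' := by
    have e1 := Nat.primeFactors_prod (sdiff_prime (y := y) (A := A))
    have e2 := Nat.primeFactors_prod (sdiff_prime (y := y) (A := A'))
    rw [← e1, ← e2]
    exact congrArg Nat.primeFactors h
  have hA1 : A ⊆ PP y := (Finset.mem_powerset.mp hA).trans hQ
  have hA2 : A' ⊆ PP y := (Finset.mem_powerset.mp hA').trans hQ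
  rw [← Finset.sdiff_sdiff_eq_self hA1, h1, Finset.sdiff_sdiff_eq_self hA2]

theorem card_le {y B : ℝ} (Q : Finset ℕ) (hQ : Q ⊆ PP y)
    (h : ∀ A ⊆ Q, nn (PP y \ A) ∈ Near y B) : 2 ^ Q.card ≤ (Near y B).ncard := by
  have h1 : ((Q.powerset.image fun A => nn (PP y \ A) : Finset ℕ) : Set ℕ) ⊆ Near y B := by
    intro n hn
    rw [Finset.coe_image] at hn
    obtain ⟨A, hA, rfl⟩ := hn
    exact h A (Finset.mem_powerset.mp hA)
  have h2 := Set.ncard_le_ncard h1 (near_finite y B)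
  rw [Set.ncard_coe_finset, Finset.card_image_of_injOn (nn_injOn hQ), Finset.card_powerset] at h2
  exact h2

/-- the primes in `(y - D, y]` -/
def QQ (y D : ℝ) : Finset ℕ := (PP y).filter (fun p : ℕ => y - D < (p : ℝ))

theorem QQ_sub (y D : ℝ) : QQ y D ⊆ PP y := Finset.filter_subset _ _

theorem mem_QQ {y D : ℝ} {p : ℕ} : p ∈ QQ y D ↔ p.Prime ∧ (p : ℝ) ≤ y ∧ y - D < p := by
  rw [QQ, Finset.mem_filter, mem_PP, and_assoc]

theorem card_QQ_le {y D : ℝ} (hD : 0 ≤ D) (hy : D ≤ y) : ((QQ y D).card : ℝ) ≤ D + 1 := by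
  have h1 : QQ y D ⊆ Finset.Ioc ⌊y - D⌋₊ ⌊y⌋₊ := by
    intro p hp
    rw [mem_QQ] at hp
    rw [Finset.mem_Ioc]
    exact ⟨(Nat.floor_lt (by linarith)).mpr hp.2.2, Nat.le_floor hp.2.1⟩
  have h2 := Finset.card_le_card h1
  rw [Nat.card_Ioc] at h2
  have h3 : ((⌊y⌋₊ - ⌊y - D⌋₊ : ℕ) : ℝ) ≤ D + 1 := by
    rw [Nat.cast_sub (Nat.floor_mono (by linarith))]
    have a1 := Nat.floor_le (show 0 ≤ y by linarith)
    have a2 := Nat.lt_floor_add_one (y - D)
    linarith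
  exact (Nat.cast_le.mpr h2).trans h3

theorem theta_sub {y D : ℝ} (hD : 0 ≤ D) :
    Chebyshev.theta y - Chebyshev.theta (y - D) = ∑ p ∈ QQ y D, Real.log p := by
  rw [theta_eq, theta_eq]
  have h := Finset.sum_filter_add_sum_filter_not (PP y) (fun p : ℕ => y - D < (p : ℝ))
    (fun p => Real.log (p : ℝ))
  have h2 : (PP y).filter (fun p : ℕ => ¬ y - D < (p : ℝ)) = PP (y - D) := by
    ext p
    rw [Finset.mem_filter, mem_PP, mem_PP, not_lt]
    constructor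
    · rintro ⟨⟨a, b⟩, c⟩
      exact ⟨a, c⟩
    · rintro ⟨a, b⟩
      exact ⟨⟨a, by linarith⟩, b⟩
  rw [h2] at h
  rw [QQ]
  linarith

theorem theta_sub_le {y D : ℝ} (hD : 0 ≤ D) :
    Chebyshev.theta y - Chebyshev.theta (y - D) ≤ (QQ y D).card * Real.log y := by
  rw [theta_sub hD, ← nsmul_eq_mul]
  apply Finset.sum_le_card_nsmul
  intro p hp
  rw [mem_QQ] at hp
  exact Real.log_le_log (by exact_mod_cast hp.1.pos) hp.2.1

end

end Pool.Agent.H881R2.Lo
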