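import Pool.Agent.H881R2.Nic.LoBase

set_option autoImplicit false

open MeasureTheory Filter Topology Set

namespace Pool.Agent.H881R2.Lo

open Pool.Agent.H295R2 Pool.Agent.H295R2.Nic

noncomputable section

/-- the loss per removed prime -/
theorem loss {y w a Θ : ℝ} (hw8 : 8 ≤ w) (ha0 : 0 ≤ a) (ha : a ≤ w / 64) (hwy : w ≤ y / 8)
    (hΘ : |Θ - y| ≤ a) {p : ℕ} (hp1 : y - w / 8 < p) (hp : p.Prime) :
    ff p - Real.log p / (Θ * Real.log Θ) ≤ 4 * w / y ^ 2 := by
  have hy : 64 ≤ y := by linarith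
  have hab := abs_le.mp hΘ
  have hΘ1 : y / 2 ≤ Θ := by linarith [hab.1]
  have hΘ2 : 3 ≤ Θ := by linarith
  have hlΘ : 1 ≤ Real.log Θ := by
    rw [← Real.log_exp 1]
    exact Real.log_le_log (Real.exp_pos 1) (by linarith [Real.exp_one_lt_d9])
  have hy0 : 0 < y := by linarith
  have hb : y / 2 ≤ y - w / 8 - 1 := by linarith
  have hb0 : 0 < y - w / 8 - 1 := by linarith
  have h1 : ff p ≤ 1 / (y - w / 8 - 1) := by
    refine (ff_le hp.two_le).trans ?_
    exact one_div_le_one_div_of_le hb0 (by linarith)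
  -- first difference
  have h2 : 1 / (y - w / 8 - 1) - 1 / Θ ≤ (a + w / 8 + 1) * (4 / y ^ 2) := by
    have e : 1 / (y - w / 8 - 1) - 1 / Θ = (Θ - y + w / 8 + 1) * (1 / (Θ * (y - w / 8 - 1))) := by
      rw [div_sub_div _ _ hb0.ne' (by linarith), mul_one_div, mul_comm Θ]
      congr 1
      ring
    rw [e]
    have h3 : 1 / (Θ * (y - w / 8 - 1)) ≤ 4 / y ^ 2 := by
      have e2 : 4 / y ^ 2 = 1 / (y / 2 * (y / 2)) := by
        field_simp
        norm_num
      rw [e2]
      apply one_div_le_one_div_of_le (by positivity)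
      exact mul_le_mul hΘ1 hb (by positivity) (by linarith)
    have h4 : 0 ≤ Θ - y + w / 8 + 1 := by linarith [hab.1]
    calc (Θ - y + w / 8 + 1) * (1 / (Θ * (y - w / 8 - 1)))
        ≤ (Θ - y + w / 8 + 1) * (4 / y ^ 2) := mul_le_mul_of_nonneg_left h3 h4
      _ ≤ (a + w / 8 + 1) * (4 / y ^ 2) := by
          apply mul_le_mul_of_nonneg_right _ (by positivity)
          linarith [hab.2]
  -- second difference
  have h3 : 1 / Θ - Real.log p / (Θ * Real.log Θ) ≤ (a + w / 8 + 1) * (4 / y ^ 2) := by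
    have hlog : Real.log Θ - Real.log p ≤ (a + w / 8 + 1) * (2 / y) := by
      have hp0 : (0 : ℝ) < p := by exact_mod_cast hp.pos
      rw [← Real.log_div (by linarith) hp0.ne']
      refine (Real.log_le_sub_one_of_pos (div_pos (by linarith) hp0)).trans ?_
      have e : Θ / p - 1 = (Θ - p) * (1 / p) := by
        field_simp
      rw [e]
      have h5 : 1 / (p : ℝ) ≤ 2 / y := by
        rw [div_le_div_iff₀ hp0 hy0]
        linarith
      calc (Θ - p) * (1 / p) ≤ (a + w / 8 + 1) * (1 / p) := by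
            apply mul_le_mul_of_nonneg_right _ (by positivity)
            linarith [hab.2]
        _ ≤ (a + w / 8 + 1) * (2 / y) := mul_le_mul_of_nonneg_left h5 (by linarith)
    have e : 1 / Θ - Real.log p / (Θ * Real.log Θ) =
        (Real.log Θ - Real.log p) * (1 / (Θ * Real.log Θ)) := by
      have : Real.log Θ ≠ 0 := by linarith
      field_simp
    rw [e]
    have h6 : 1 / (Θ * Real.log Θ) ≤ 2 / y := by
      rw [div_le_div_iff₀ (by positivity) hy0]
      nlinarith
    have h7 : 0 ≤ 1 / (Θ * Real.log Θ) := by positivity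
    calc (Real.log Θ - Real.log p) * (1 / (Θ * Real.log Θ))
        ≤ ((a + w / 8 + 1) * (2 / y)) * (1 / (Θ * Real.log Θ)) :=
          mul_le_mul_of_nonneg_right hlog h7
      _ ≤ ((a + w / 8 + 1) * (2 / y)) * (2 / y) := by
          apply mul_le_mul_of_nonneg_left h6
          have : 0 ≤ a + w / 8 + 1 := by linarith
          positivity
      _ = (a + w / 8 + 1) * (4 / y ^ 2) := by
          field_simp
          norm_num
  have h8 : (a + w / 8 + 1) * (4 / y ^ 2) ≤ 2 * w / y ^ 2 := by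
    rw [mul_div_assoc', div_le_div_iff_of_pos_right (by positivity)]
    linarith
  have e9 : 4 * w / y ^ 2 = 2 * w / y ^ 2 + 2 * w / y ^ 2 := by ring
  linarith

theorem short_det {y w a B : ℝ} (hw8 : 8 ≤ w) (ha0 : 0 ≤ a) (ha : a ≤ w / 64) (hwy : w ≤ y / 8)
    (hwl : w * Real.log y ≤ y) (hΘ : |Chebyshev.theta y - y| ≤ a)
    (hB : w ^ 2 / y ^ 2 ≤ fN y + B) (A : Finset ℕ) (hA : A ⊆ QQ y (w / 8)) :
    nn (PP y \ A) ∈ Near y B := by
  have hy : 64 ≤ y := by linarith
  have hy0 : 0 < y := by linarith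
  have hab := abs_le.mp hΘ
  have hΘ2 : 3 ≤ Chebyshev.theta y := by linarith [hab.1]
  have hlΘ : 1 ≤ Real.log (Chebyshev.theta y) := by
    rw [← Real.log_exp 1]
    exact Real.log_le_log (Real.exp_pos 1) (by linarith [Real.exp_one_lt_d9])
  have hly : 0 ≤ Real.log y := Real.log_nonneg (by linarith)
  have hcard : (A.card : ℝ) ≤ w / 4 := by
    have h1 : (A.card : ℝ) ≤ (QQ y (w / 8)).card := by exact_mod_cast Finset.card_le_card hA
    have h2 := card_QQ_le (y := y) (D := w / 8) (by linarith) (by linarith)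
    linarith
  have hsum : ∑ p ∈ A, Real.log p ≤ y / 4 := by
    have h1 : ∑ p ∈ A, Real.log (p : ℝ) ≤ A.card • Real.log y := by
      apply Finset.sum_le_card_nsmul
      intro p hp
      have := mem_QQ.mp (hA hp)
      exact Real.log_le_log (by exact_mod_cast this.1.pos) this.2.1
    rw [nsmul_eq_mul] at h1
    have h2 : (A.card : ℝ) * Real.log y ≤ w / 4 * Real.log y :=
      mul_le_mul_of_nonneg_right hcard hly
    linarith
  apply near_mem A (hA.trans (QQ_sub _ _)) (by linarith) (by linarith [hab.1])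
    (by linarith [hab.2]) (by linarith [hab.1])
  refine le_trans ?_ hB
  rw [Finset.sum_div, ← Finset.sum_sub_distrib]
  calc ∑ p ∈ A, (ff p - Real.log p / (Chebyshev.theta y * Real.log (Chebyshev.theta y)))
      ≤ A.card • (4 * w / y ^ 2) := by
        apply Finset.sum_le_card_nsmul
        intro p hp
        have := mem_QQ.mp (hA hp)
        exact loss hw8 ha0 ha hwy hΘ this.2.2 this.1
    _ = A.card * (4 * w / y ^ 2) := nsmul_eq_mul _ _
    _ ≤ w / 4 * (4 * w / y ^ 2) := mul_le_mul_of_nonneg_right hcard (by positivity)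
    _ = w ^ 2 / y ^ 2 := by ring

theorem card_QQ_ge {y w a : ℝ} (hw8 : 8 ≤ w) (ha : a ≤ w / 64)
    (hΘ : |Chebyshev.theta y - y| ≤ a)
    (hΘ' : |Chebyshev.theta (y - w / 8) - (y - w / 8)| ≤ a) :
    3 * w / 32 ≤ (QQ y (w / 8)).card * Real.log y := by
  have h := theta_sub_le (y := y) (D := w / 8) (by linarith)
  have h1 := abs_le.mp hΘ
  have h2 := abs_le.mp hΘ'
  linarith [h1.1, h2.2]

theorem ev_rpow_le {s t : ℝ} (hst : s < t) (c : ℝ) (hc : 0 < c) :
    ∀ᶠ y : ℝ in atTop, y ^ s ≤ c * y ^ t := by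
  have h := (tendsto_rpow_atTop (sub_pos.mpr hst)).eventually_ge_atTop (1 / c)
  filter_upwards [h, eventually_ge_atTop 1] with y hy hy1
  have hy0 : 0 < y := by linarith
  have e : y ^ t = y ^ s * y ^ (t - s) := by
    rw [← Real.rpow_add hy0]
    congr 1
    ring
  have h1 : 1 ≤ c * y ^ (t - s) := by
    have := mul_le_mul_of_nonneg_left hy hc.le
    rwa [mul_one_div, div_self hc.ne'] at this
  have h2 : 0 ≤ y ^ s := by positivity
  rw [e]
  nlinarith

theorem ev_log_le {t : ℝ} (ht : 0 < t) (c : ℝ) (hc : 0 < c) :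
    ∀ᶠ y : ℝ in atTop, Real.log y ≤ c * y ^ t := by
  have h := (isLittleO_log_rpow_atTop ht).def hc
  filter_upwards [h, eventually_ge_atTop 1] with y hy hy1
  rw [Real.norm_of_nonneg (Real.log_nonneg hy1), Real.norm_of_nonneg (by positivity)] at hy
  exact hy

theorem loShort : LoShort := by
  intro θ κ ε hθ hκ hκ1 hκθ hε hC
  obtain ⟨C, hC⟩ := hC
  -- exponents
  set t := max θ 0 with ht
  have ht0 : 0 ≤ t := le_max_right _ _
  have htw : t < 1 - κ / 2 := max_lt (by linarith) (by linarith)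
  set C1 := max C 1 with hC1d
  have hC1 : 0 < C1 := lt_of_lt_of_le one_pos (le_max_right _ _)
  have hbd : ∀ x : ℝ, 1 ≤ x → |Chebyshev.theta x - x| ≤ C1 * x ^ t := by
    intro x hx
    refine (hC x hx).trans ?_
    have h1 : x ^ θ ≤ x ^ t := Real.rpow_le_rpow_of_exponent_le hx (le_max_left _ _)
    have h2 : 0 ≤ x ^ θ := by positivity
    calc C * x ^ θ ≤ C1 * x ^ θ := mul_le_mul_of_nonneg_right (le_max_left _ _) h2
      _ ≤ C1 * x ^ t := mul_le_mul_of_nonneg_left h1 hC1.le
  have key : ∀ᶠ y : ℝ in atTop, ∀ B : ℝ, y ^ (-κ) ≤ fN y + B →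
      Real.exp (y ^ (1 - κ / 2 - ε)) ≤ ((Near y B).ncard : ℝ) := by
    have e1 : ∀ᶠ y : ℝ in atTop, 8 ≤ y ^ (1 - κ / 2) :=
      (tendsto_rpow_atTop (by linarith)).eventually_ge_atTop 8
    have e2 := ev_rpow_le htw (1 / (64 * C1)) (by positivity)
    have e3 := ev_rpow_le (show 1 - κ / 2 < 1 by linarith) (1 / 8) (by norm_num)
    have e4 := ev_log_le (show 0 < κ / 2 by linarith) 1 one_pos
    have e5 := ev_log_le hε (1 / 22) (by norm_num)
    filter_upwards [e1, e2, e3, e4, e5, eventually_ge_atTop 100] with y h1 h2 h3 h4 h5 hy B hB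
    have hy0 : 0 < y := by linarith
    set w := y ^ (1 - κ / 2) with hw
    set a := C1 * y ^ t with ha
    have ha0 : 0 ≤ a := by positivity
    have haw : a ≤ w / 64 := by
      rw [ha]
      have := mul_le_mul_of_nonneg_left h2 hC1.le
      refine this.trans (le_of_eq ?_)
      field_simp
    have hwy : w ≤ y / 8 := by
      rw [Real.rpow_one] at h3
      linarith
    have hwl : w * Real.log y ≤ y := by
      have : w * Real.log y ≤ w * (1 * y ^ (κ / 2)) :=
        mul_le_mul_of_nonneg_left h4 (by positivity)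
      refine this.trans (le_of_eq ?_)
      rw [hw, one_mul, ← Real.rpow_add hy0]
      ring_nf
      rw [Real.rpow_one]
    have hΘ : |Chebyshev.theta y - y| ≤ a := hbd y (by linarith)
    clear_value w
    have hΘ' : |Chebyshev.theta (y - w / 8) - (y - w / 8)| ≤ a := by
      refine (hbd _ (by linarith only [hwy, hy])).trans ?_
      apply mul_le_mul_of_nonneg_left _ hC1.le
      exact Real.rpow_le_rpow (by linarith only [hwy, hy]) (by linarith only [h1]) ht0
    have hB' : w ^ 2 / y ^ 2 ≤ fN y + B := by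
      refine le_trans (le_of_eq ?_) hB
      rw [hw, ← Real.rpow_natCast, ← Real.rpow_natCast, ← Real.rpow_mul hy0.le,
        ← Real.rpow_sub hy0]
      congr 1
      push_cast
      ring
    have hc := card_le (y := y) (B := B) (QQ y (w / 8)) (QQ_sub _ _)
      (fun A hA => short_det h1 ha0 haw hwy hwl hΘ hB' A hA)
    have hq := card_QQ_ge h1 haw hΘ hΘ'
    have hc' : (2 : ℝ) ^ (QQ y (w / 8)).card ≤ ((Near y B).ncard : ℝ) := by exact_mod_cast hc
    refine le_trans ?_ hc'
    have e2 : (2 : ℝ) ^ (QQ y (w / 8)).card = Real.exp (Real.log 2 * (QQ y (w / 8)).card) := by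
      rw [← Real.rpow_natCast, Real.rpow_def_of_pos (by norm_num)]
    rw [e2]
    apply Real.exp_le_exp.mpr
    have hlog2 : (1 : ℝ) / 2 ≤ Real.log 2 := by linarith [Real.log_two_gt_d9]
    -- `y ^ (1 - κ/2 - ε) * (22 log y) ≤ w`
    have hly : 0 < Real.log y := Real.log_pos (by linarith)
    have h6 : y ^ (1 - κ / 2 - ε) * (22 * Real.log y) ≤ w := by
      have : y ^ (1 - κ / 2 - ε) * (22 * Real.log y) ≤ y ^ (1 - κ / 2 - ε) * y ^ ε :=
        mul_le_mul_of_nonneg_left (by linarith) (by positivity)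
      refine this.trans (le_of_eq ?_)
      rw [← Real.rpow_add hy0, hw]
      congr 1
      ring
    have h7 : y ^ (1 - κ / 2 - ε) * Real.log y ≤
        (1 / 2 * (QQ y (w / 8)).card) * Real.log y := by
      linarith
    have h8 := le_of_mul_le_mul_right h7 hly
    have h9 : (1 : ℝ) / 2 * (QQ y (w / 8)).card ≤ Real.log 2 * (QQ y (w / 8)).card :=
      mul_le_mul_of_nonneg_right hlog2 (by positivity)
    linarith
  obtain ⟨Y₀, hY⟩ := eventually_atTop.mp key
  exact ⟨Y₀, fun y B hy => hY y hy B⟩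

end

end Pool.Agent.H881R2.Lo
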